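import Pool.Agent.R791.Frob
import Pool.Agent.R791.Mero3

/-!
# The order of vanishing in the Beilinson–Bloch conjecture and finite sums of local factors

Let `K` be a number field, `X` smooth and projective over `K`, `m ≥ 1` and `L(s)` the `L`-function of `H^(2m-1)(X)`
without the Euler factors at a finite set of primes that contains the primes of bad reduction. Its Euler factor at `v`
is `∏ᵢ (1 - α_{v,i} Nv^(-s))⁻¹`, where the eigenvalues `α_{v,i}` of Frobenius have absolute value `Nv^(m-1/2)` and the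
polynomials `∏ᵢ (1 - α_{v,i} T)` are real (Deligne). All that follows is proved for every system of numbers
`α_{v,i}`, `v` a prime of `K`, with `|α_{v,i}| ≤ Nv^(m-1/2)` and real polynomials. For `1 < ρ < ρ'` let

`w_ρ(u) = (2π)⁻¹ ∫ Re (exp (z - u z^(1/ρ)) / z) dt`, `z = 1 + it`, and
`S_ρ(Y) = ∑_{Nv ≤ exp((log Y)^ρ')} w_ρ(log Nv / log Y) log ∏ᵢ (1 - α_{v,i} Nv^(-m))`,

a FINITE sum of logarithms of local factors at the centre `s = m`.

(1) For `ρ₀ ≥ 1` and a real number `r`, and with no assumption on the continuation of `L(s)`: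
`S_ρ(Y) = r log log Y + O(1)` for all `ρ > ρ₀` if and only if `L(s)` has a holomorphic continuation without zeros to the
sector `|arg (s-m)| < π/(2ρ₀)` that has the order of magnitude of `|s-m|^r` as `s → m` in the smaller sectors.
If the formula holds for one `ρ₀ > 1` then it holds for all `ρ > ρ₀`.

(2) If the formula holds for one `ρ > 1`, then every meromorphic continuation of `L(s)` along the real axis to a
neighbourhood of `s = m` has the order `r` at `s = m`; in particular `r` is an integer.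

(3) If `L(s)` has a meromorphic continuation to a neighbourhood of `s = m` and to the sector
`|arg (s-m)| < π/(2ρ₀)`, without zeros and poles in the sector, then for an integer `r` it has the order `r` at `s = m` if
and only if `S_ρ(Y) = r log log Y + O(1)` for all `ρ > ρ₀`, if and only if this holds for one `ρ > ρ₀`.

With `r` the rank of the group of homologically trivial cycles, the equality `ord = rank` of Beilinson and Bloch
becomes an asymptotic formula for finite sums of values of characteristic polynomials of Frobenius, the direct analogue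
of the original form of the conjecture of Birch and Swinnerton-Dyer, and this formula makes sense, and has an exact
analytic meaning by (1), when no continuation is known. (For the sharp cut-off `∏_{Nv ≤ Y} ~ C (log Y)^r` the formula
is stronger than the Riemann hypothesis, by results of Goldfeld and Conrad for elliptic curves over `ℚ`.)
-/

set_option autoImplicit false

namespace Pool.Agent.Results.MP_b8021b_nt.CentralOrder

open Filter Topology Complex NumberField IsDedekindDomain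
open Pool.Agent.TH942.ES Pool.Agent.R791.SectGen Pool.Agent.R791.Frob Pool.Agent.R791.Mero

variable {K : Type} [Field K] [NumberField K] {d m : ℕ}

/-- The sector `|arg (s-m)| < π/(2ρ)`, `s ≠ m`. -/
def Sector (m : ℕ) (ρ : ℝ) : Set ℂ := {s | s ≠ m ∧ |(s - m).arg| < Real.pi / (2 * ρ)}

/-- `S_ρ(Y) = r log log Y + O(1)`. -/
def Formula (V : Frobenius K d m) (ρ ρ' r : ℝ) : Prop :=
  ∃ C : ℝ, ∀ᶠ Y : ℝ in atTop, |V.sum ρ ρ' Y - r * Real.log (Real.log Y)| ≤ C

/-- **The order at the centre and finite sums of local factors.** -/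
theorem result (V : Frobenius K d m) :
    (∀ ρ₀ : ℝ, 1 ≤ ρ₀ → ∀ r : ℝ, (∀ ρ ρ' : ℝ, ρ₀ < ρ → ρ < ρ' → Formula V ρ ρ' r) ↔
      ∃ G : ℂ → ℂ,
        (∀ s : ℂ, s ∈ Sector m ρ₀ ∨ m + 1 / 2 < s.re → DifferentiableAt ℂ G s ∧ G s ≠ 0) ∧
        (∀ s : ℂ, m + 1 / 2 < s.re → G s = V.LSeries s) ∧
        ∀ ρ : ℝ, ρ₀ < ρ → ∃ A B : ℝ, 0 < A ∧ 0 < B ∧ ∀ s ∈ Sector m ρ, ‖s - m‖ ≤ 1 →
          A * ‖s - m‖ ^ r ≤ ‖G s‖ ∧ ‖G s‖ ≤ B * ‖s - m‖ ^ r) ∧
    (∀ ρ₀ ρ₀' r : ℝ, 1 < ρ₀ → ρ₀ < ρ₀' → Formula V ρ₀ ρ₀' r →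
      ∀ ρ ρ' : ℝ, ρ₀ < ρ → ρ < ρ' → Formula V ρ ρ' r) ∧
    (∀ F : ℂ → ℂ, (∀ x : ℝ, m ≤ x → MeromorphicAt F x) →
      (∀ s : ℂ, m + 1 / 2 < s.re → F s = V.LSeries s) →
      ∀ ρ ρ' r : ℝ, 1 < ρ → ρ < ρ' → Formula V ρ ρ' r →
        ∃ n : ℤ, (n : ℝ) = r ∧ meromorphicOrderAt F m = n) ∧
    ∀ (F : ℂ → ℂ) (ρ₀ : ℝ), 1 ≤ ρ₀ → MeromorphicAt F m →
      (∀ s ∈ Sector m ρ₀, DifferentiableAt ℂ F s ∧ F s ≠ 0) →
      (∀ s : ℂ, m + 1 / 2 < s.re → F s = V.LSeries s) → ∀ r : ℤ, List.TFAE [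
        meromorphicOrderAt F m = r,
        ∀ ρ ρ' : ℝ, ρ₀ < ρ → ρ < ρ' → Formula V ρ ρ' r,
        ∃ ρ ρ' : ℝ, ρ₀ < ρ ∧ ρ < ρ' ∧ Formula V ρ ρ' r] := by
  have E := V.sys
  have hF : ∀ ρ ρ' r : ℝ, Formula V ρ ρ' r ↔ ∃ C : ℝ, ∀ᶠ Y : ℝ in atTop,
      |SrE (fun v : {v // v ∉ V.bad} => Pool.Agent.H921R2.TatePole.nm v.1) V.al ρ ρ' Y -
        r * Real.log (Real.log Y)| ≤ C := by
    intro ρ ρ' r
    unfold Formula
    simp only [V.sum_eq]
  have hS : ∀ ρ, Sector m ρ = SectorAt m ρ := fun ρ => by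
    unfold Sector SectorAt
    simp only [Complex.ofReal_natCast]
  have hL : ∀ s : ℂ, Pool.Agent.TH942.ES.LE
      (fun v : {v // v ∉ V.bad} => Pool.Agent.H921R2.TatePole.nm v.1) V.al (s - ((m : ℝ) : ℂ)) =
      V.LSeries s := V.LE_eq
  have hL' : ∀ s : ℂ, Pool.Agent.TH942.ES.LE
      (fun v : {v // v ∉ V.bad} => Pool.Agent.H921R2.TatePole.nm v.1) V.al (s - (m : ℂ)) =
      V.LSeries s := fun s => by
    have := V.LE_eq s
    rwa [Complex.ofReal_natCast] at this
  refine ⟨fun ρ₀ h r => ?_, fun ρ₀ ρ₀' r h h' h1 ρ ρ' hρ hρ' => ?_,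
    fun F hF1 hF2 ρ ρ' r h h' h1 => ?_, fun F ρ₀ h hF0 hF1 hF2 r => ?_⟩
  · simp only [hF]
    rw [S_iff E m h r]
    simp only [hL', hS, Complex.ofReal_natCast]
  · rw [hF] at h1 ⊢
    exact S_single E h h' h1 ρ ρ' hρ hρ'
  · rw [hF] at h1
    have := S_order E m (F := F) hF1 (fun s hs => by rw [hL]; exact hF2 s hs) h h' h1
    simpa only [Complex.ofReal_natCast] using this
  · have hF0' : MeromorphicAt F ((m : ℝ) : ℂ) := by rwa [Complex.ofReal_natCast]
    have hF1' : ∀ s ∈ SectorAt m ρ₀, DifferentiableAt ℂ F s ∧ F s ≠ 0 := by rwa [← hS]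
    have hF2' : ∀ s : ℂ, (m : ℝ) + 1 / 2 < s.re → F s = Pool.Agent.TH942.ES.LE
      (fun v : {v // v ∉ V.bad} => Pool.Agent.H921R2.TatePole.nm v.1) V.al (s - ((m : ℝ) : ℂ)) :=
      fun s hs => by rw [hL]; exact hF2 s hs
    tfae_have 1 → 2 := by
      intro h1 ρ ρ' hρ hρ'
      obtain ⟨n, hn, h2⟩ := S_of_cont E m h hF0' hF1' hF2'
      rw [Complex.ofReal_natCast, h1] at hn
      have hn' : r = n := by exact_mod_cast hn
      rw [hF, hn']
      exact h2 ρ ρ' hρ hρ'
    tfae_have 2 → 3 := fun h1 => ⟨ρ₀ + 1, ρ₀ + 2, by linarith, by linarith,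
      h1 _ _ (by linarith) (by linarith)⟩
    tfae_have 3 → 1 := by
      rintro ⟨ρ, ρ', hρ, hρ', h1⟩
      rw [hF] at h1
      obtain ⟨n, hn, h2⟩ := S_order E m (F := F) (fun x hx => by
        rcases hx.eq_or_lt with hx | hx
        · rw [← hx]
          exact hF0'
        · exact (axis_analytic h (fun s hs => (hF1' s hs).1) hx).meromorphicAt) hF2'
        (by linarith) hρ' h1
      rw [Complex.ofReal_natCast] at h2
      have hn' : n = r := by exact_mod_cast hn
      rw [h2, hn']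
    tfae_finish

end Pool.Agent.Results.MP_b8021b_nt.CentralOrder
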