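import Pool.Agent.R904.FG.Main

/-!
# The conjecture of Beilinson and Bloch for integral Chow groups: two diagonals suffice

Finite generation of `CH^m(X)_hom` for all `X` and `m` is equivalent to its cases `dim X - 2 m = a`,
`X` rational, for one given integer `a`. The full conjecture (finite generation and the rank formula)
is equivalent to its cases `dim X - 2 m = a` or `b`, `X` rational, for two given different integers.
It is also equivalent to the central cases `dim X = 2 m - 1` together with the equality of the ranks
of `CH^m(X)_hom` and `CH^(m+1)(X)_hom` for `dim X = 2 m`. The central cases alone are equivalent to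
finite generation and a symmetrised rank formula for all `X` and `m`.
-/

set_option autoImplicit false

open Pool.Agent.H914 Pool.Agent.H914.VarClass Pool.Agent.H914.VarClass.Obj
open Pool.Agent.R904.RG Pool.Agent.R904.FG

universe u v w

namespace Pool.Agent.Results.MP_b8021b_nt.IntegralTwoDiagonals

/-- Let `𝒱` be a class of smooth proper geometrically irreducible varieties over `k` which is closed
under products, with integral Chow groups and cycle class maps `Z` and, for every `ℓ`, Euler factors
`E ℓ`. Let `L` be the projective line and `R` a class of varieties in `𝒱` (for example the rational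
ones) which is closed under products with `L` and contains for every `X` in `𝒱` a blow-up of a
projective space along `X`. (Ranks are compared with orders for the `ℓ` for which the `L`-functions
of `X` in odd degrees continue.)

1. `CH^m(X)_hom` is finitely generated for all `X` in `𝒱` and all `m` if and only if this holds for
   `X` in `R` and `dim X - 2 m = a`.
2. For `a ≠ b`: finite generation and the rank formula hold for all `X` in `𝒱` and all `m` if and
   only if they hold for `X` in `R` and `dim X - 2 m = a` or `b`.
3. They hold for all `X` in `𝒱` and all `m` if and only if they hold for `X` in `R` and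
   `dim X = 2 m - 1`, and `CH^m(X)_hom` and `CH^(m+1)(X)_hom` have the same rank if `X` is in `R` and
   `dim X = 2 m`.
4. They hold for all `X` in `R` with `dim X = 2 m - 1` if and only if for all `X` in `R` and all `m`
   the group `CH^m(X)_hom` is finitely generated and the sum of the ranks of `CH^m(X)_hom` and
   `CH^(dim X + 1 - m)(X)_hom` is twice the order. -/
theorem result {k : Type u} [Field k] {𝒱 : VarClass k} (Z : CycData.{u, v, w} 𝒱) {Λ : Type}
    (E : Λ → EulerZ 𝒱) {L : 𝒱.Obj} (hL : L.dim = 1) (hZ : IsCycTheory Z L)
    (hE : ∀ ℓ, IsEuler (E ℓ) L) (R : Set 𝒱.Obj) (hR : ∀ X ∈ R, X.prod L ∈ R)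
    (hB : ∀ X, ∃ B ∈ R, ∃ P c, IsBlowUp Z E X B P c) :
    (∀ a : ℤ, Everywhere Set.univ (FinGen Z) ↔ OnDiagonal R a (FinGen Z)) ∧
    (∀ a b : ℤ, a ≠ b →
      (Everywhere Set.univ (BB Z E) ↔ OnDiagonal R a (BB Z E) ∧ OnDiagonal R b (BB Z E))) ∧
    (Everywhere Set.univ (BB Z E) ↔ OnDiagonal R (-1) (BB Z E) ∧ OnDiagonal R 0 (EqualRank Z E)) ∧
    (OnDiagonal R (-1) (BB Z E) ↔ Everywhere R (BBSym Z E)) :=
  ⟨fun a => fin_iff hZ hL hR hB a, fun _ _ hab => all_iff_two hZ hE hL hR hB hab,
    all_iff_center hZ hE hL hR hB, center_iff hZ hE hL hR⟩

end Pool.Agent.Results.MP_b8021b_nt.IntegralTwoDiagonals
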