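import Pool.Agent.R898.F

/-!
# The Beilinson–Bloch conjecture for motives and correspondences

Let `k` be a field (a number field in the problem), `𝒱` a class of smooth projective varieties over
`k` which is closed under products (for example all of them), `C` their Chow groups with rational
coefficients and `W` a Weil cohomology theory (for example `ℓ`-adic cohomology), for which the
standard conjecture of Künneth type holds on `𝒱` (this is known if `𝒱` consists of the products of
abelian varieties, surfaces and complete intersections). A motive `M = (X, p)` is a variety in `𝒱`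
with an idempotent `p ∈ CH^(dim X)(X × X)`; `CH^m(M)_hom` is the image under `p` of the space of the
homologically trivial classes in `CH^m(X)`, and `H^j(M)` is the image under `p` of `H^j(X)`.

**Theorem.** (1) Suppose that the spaces `CH^m(X)_hom` are finite-dimensional and that for all motives
`M` and all `m ≥ 1` such that `L(H^(2m-1)(M), s)` has a meromorphic continuation the dimension of
`CH^m(M)_hom` is the order of `L(H^(2m-1)(M), s)` at `s = m`. Then there is a Bloch–Beilinson
filtration `F` on the Chow groups of the varieties in `𝒱`, and `F^2 = 0`: a correspondence `Γ` between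
two varieties (of any degree) which acts as zero on `H^(2m-1)` acts as zero on `CH^m_hom`.

Only the case `H^(2m-1)(M) = 0` of the formula is used, in which `L(H^(2m-1)(M), s) = 1`, and so the
function `ord` with the values `ord_(s=m) L(U, s)` may be any function which is zero at `U = 0`.

(2) More precisely: there is a Bloch–Beilinson filtration with `F^2 = 0` if and only if
(a) `CH^m(M)_hom = 0` for all motives `M` and all `m ≥ 1` with `H^(2m-1)(M) = 0`, and
(b) the powers of each homologically trivial correspondence from a variety to itself span a
finite-dimensional space.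

(3) If this is so, then `CH^m(M)_hom` is determined by `H^(2m-1)(M)`: if correspondences induce an
isomorphism of `H^(2m-1)(M)` with `H^(2n-1)(N)` then `CH^m(M)_hom` and `CH^n(N)_hom` are isomorphic; and
`x · y = 0` for all homologically trivial classes `x`, `y` on a variety.
-/

open Pool.Agent.H914 Pool.Agent.R903 Pool.Agent.R898

universe u v w

namespace Pool.Agent.Results.MP_b8021b_nt.RankFormulaForMotives

theorem result {k : Type u} [Field k] {𝒱 : VarClass k} {C : ChowTheory.{u, v} 𝒱}
    (W : WeilTheory.{u, v, w} C) (hP : C.Polarized) (hK : W.Kunneth) :
    (∀ ord, F.OrdZero W ord → F.RankFormula W ord → ∃ F', F.IsBB W F') ∧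
      ((∃ F', F.IsBB W F') ↔ F.Vanishing W ∧ F.Algebraic W) ∧
      ((∃ F', F.IsBB W F') → F.Determined W ∧ F.NoProducts W) := by
  have key : F.Algebraic W → F.Vanishing W → ∃ F', F.IsBB W F' := fun hA hV =>
    ⟨fil2 W, isBB_of_twoStep hP (twoStep_of_vanishing hP (hasCK_of_algebraic hK hA) hV)⟩
  refine ⟨fun ord h0 h => ?_, ⟨?_, fun h => key h.2 h.1⟩, ?_⟩
  · obtain ⟨hA, hV⟩ := rank_imp h0 h
    exact key hA hV
  · rintro ⟨F', hF⟩
    exact ⟨(twoStep_of_isBB hF).vanishing, (twoStep_of_isBB hF).algebraic hP⟩
  · rintro ⟨F', hF⟩
    exact ⟨(twoStep_of_isBB hF).determined, (twoStep_of_isBB hF).noProducts hP⟩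

end Pool.Agent.Results.MP_b8021b_nt.RankFormulaForMotives
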