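import Pool.Agent.R425.T.Ten
import Pool.Agent.R901.EC.X11

/-!
# Abelian varieties `E ⊗ M` over the infinite abelian 2-extensions: rank, order and `Ш[2^∞]`

`E_1, …, E_r` are elliptic curves over `ℚ`, given with their newforms, with trivial 2-Selmer group over
`ℚ` and with `L(E_i, 1) ≠ 0`; the discriminants may be positive or negative, and complex multiplication
is allowed.  A prime `q` is admissible if `q ∤ 6 Δ_i` and the number of the points of `E_i` over `ℤ/q` is
odd for all `i`.

Theorem: let `H` be an infinite group of Dirichlet characters of order dividing `2 ^ n` and of squarefree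
conductors composed of admissible primes.  Then `H` has an infinite subgroup `H'` with the following
property.  Let `m` be any product of different admissible primes, and `M = ℤ^g` any lattice, of any rank,
with an action `ρ` of `Gal(ℚ(ζ_m)/ℚ) = (ℤ/m)ˣ` that is trivial on the `u` at which all the characters in
`H'` of conductor dividing `m` are `1` (so the action factors through the Galois group of the abelian
field of `H'`).  Let `A = E_i ⊗ M`, an abelian variety over `ℚ` of dimension `g` with dual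
`A' = E_i ⊗ M^∨`.  Then `L(A, s)` is entire, its order of vanishing at `s = 1` is the rank `0` of `A(ℚ)` and
of `A'(ℚ)`; these groups are finite of odd order, and `Ш(A/ℚ)[2^∞] = Ш(A'/ℚ)[2^∞] = 0`.

As `CH^1(A)_hom` is the group `A'(ℚ)` up to torsion and `L(H^1(A), s) = L(A, s)`, this is the formula
of the conjecture of Beilinson and Bloch for `A` in codimension one.

The proof.  The even characters in `H` with `χ(p) = 1` for the primes `p` dividing `2 Δ_i` for some `i`
form a subgroup `H_1` of finite index.  By a starting result on towers (files `Y18/LP`: the modular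
symbols modulo a prime above `2`) it has an infinite subgroup `H'` such that `L(E_i, χ, 1) ≠ 0` for all
`χ` in `H'`.  Over `ℂ` the lattice `M` is the sum of `g` characters; by the duality of finite abelian
groups they belong to `H'`, and `L(A, s)` is the product of the twisted `L`-functions.  On the algebraic
side the 2-Selmer group of `E_i` is trivial over the totally real field `K` where `M` becomes trivial, of
degree a power of two, and the descent from `K` gives the result for `A`.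
-/

set_option autoImplicit false

open Complex UpperHalfPlane MatrixGroups CongruenceSubgroup NumberField IsDedekindDomain
open WeierstrassCurve

namespace Pool.Agent.Results.MP_b8021b_nt.TensorTowers

open Pool.Agent.TH841.NF.D (Sha)
open Pool.Agent.TH841.SH.D (Pt act Gal)

/-- `N_p`: the number of pairs `(x, y) ∈ (ℤ/p)²` with `y² = x³ + a x + b`. -/
noncomputable def pointCount (a b : ℤ) (p : ℕ) : ℕ :=
  Nat.card {q : ZMod p × ZMod p // q.2 ^ 2 = q.1 ^ 3 + (a : ZMod p) * q.1 + (b : ZMod p)}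

/-- `p` is a prime not dividing `2 Δ`, `Δ = -4 a³ - 27 b²`. -/
def GoodPrime (a b : ℤ) (p : ℕ) : Prop :=
  p.Prime ∧ ¬ ((p : ℤ) ∣ 2 * (-4 * a ^ 3 - 27 * b ^ 2))

open Classical in
/-- `L(E, 1) ≠ 0` for `E : y² = x³ + a x + b`: there is an entire function `F` which for
`Re s > 3/2` is the incomplete L-series `∏_{p ∤ 2Δ} (1 - a_p p^{-s} + p^{1-2s})⁻¹`, `a_p = p - N_p`,
of `E` over `ℚ`, and `F(1) ≠ 0`. -/
def AnalyticRankZero (a b : ℤ) : Prop :=
  ∃ F : ℂ → ℂ, (Differentiable ℂ F ∧ ∀ s : ℂ, (3 : ℝ) / 2 < s.re →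
    HasProd (fun p : ℕ => if GoodPrime a b p then
      (1 - ((p : ℂ) - (pointCount a b p : ℂ)) * (p : ℂ) ^ (-s) + (p : ℂ) ^ (1 - 2 * s))⁻¹ else 1)
      (F s)) ∧ F 1 ≠ 0

/-- `q` is a prime, `q ∤ 2 Δ`, and the number `N_q + 1` of the points of `E : y² = x³ + a x + b` over
`ℤ/q` (with the point at infinity) is odd. -/
def Admissible (a b : ℤ) (q : ℕ) : Prop := GoodPrime a b q ∧ ¬ 2 ∣ pointCount a b q + 1

/-- The families `c = (c_q)` of characters `c_q` of the groups `(ℤ/q)ˣ`.  The family with `c_q = 1`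
except for the primes `q` of a finite set stands for the Dirichlet character `χ_c = ∏ c_q` of
squarefree conductor; this is an isomorphism of groups. -/
abbrev Fam : Type := (q : ℕ) → (ZMod q)ˣ →* ℂˣ

open Classical in
/-- The set of the `q` with `c_q ≠ 1` (if it is finite). -/
noncomputable def supp (c : Fam) : Finset ℕ :=
  if h : {q | c q ≠ 1}.Finite then h.toFinset else ∅

/-- The conductor of `χ_c`. -/
noncomputable def conductor (c : Fam) : ℕ := ∏ q ∈ supp c, q

/-- The value `χ_c(m)`. -/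
noncomputable def value (c : Fam) (m : ℕ) : ℂ :=
  ∏ q ∈ supp c, if h : m.Coprime q then (c q (ZMod.unitOfCoprime m h) : ℂ) else 0

/-- `H` is a group of Dirichlet characters of order dividing `2 ^ n` and of squarefree conductors
composed of primes admissible for all the curves. -/
structure IsCharGroup {m : ℕ} (a b : Fin m → ℤ) (n : ℕ) (H : Subgroup Fam) : Prop where
  pow : ∀ c ∈ H, c ^ (2 ^ n) = 1
  finite : ∀ c ∈ H, {q | c q ≠ 1}.Finite
  admissible : ∀ c ∈ H, ∀ q, c q ≠ 1 → q.Prime ∧ ∀ i, Admissible (a i) (b i) q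

/-- The `n`-th Fourier coefficient of `f`. -/
noncomputable def coef {N : ℕ} (f : CuspForm (Gamma0 N : Subgroup (GL (Fin 2) ℝ)) 2) (n : ℕ) : ℂ :=
  (qExpansion 1 f).coeff n

/-- `f ∈ S_2(Γ₀(N))` is the newform of the elliptic curve `E : y² = x³ + a x + b`, with its standard
properties: the Fourier coefficients `c(n)` of `f` are real with `c(1) = 1`, they satisfy the Hecke
relations `c(mn) = c(m) c(n)` for coprime `m`, `n` and `c(p^(j+2)) = c(p) c(p^(j+1)) - p c(p^j)`
(without the last term if `p ∣ N`) and the bounds `|c(p)| ≤ 2√p` for `p ∤ N`, `|c(p)| ≤ 1` for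
`p ∣ N`; `f` is an eigenfunction of the Fricke involution: `f(-1/(Nτ)) = -w N τ² f(τ)` with `w = ±1`;
for all primes `p ∤ 2Δ` one has `p ∤ N` and `c(p) = a_p(E)`.  (Every elliptic curve over `ℚ` has such a
form by the modularity theorem.) -/
structure IsFormOf (a b : ℤ) (N : ℕ) (f : CuspForm (Gamma0 N : Subgroup (GL (Fin 2) ℝ)) 2) :
    Prop where
  one : coef f 1 = 1
  real : ∀ n, (coef f n).im = 0
  mul : ∀ m n : ℕ, Nat.Coprime m n → coef f (m * n) = coef f m * coef f n
  pow : ∀ p j : ℕ, p.Prime → coef f (p ^ (j + 2)) = coef f p * coef f (p ^ (j + 1)) -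
      (if p ∣ N then 0 else (p : ℂ) * coef f (p ^ j))
  good : ∀ p : ℕ, p.Prime → ¬ p ∣ N → ‖coef f p‖ ≤ 2 * Real.sqrt p
  bad : ∀ p : ℕ, p.Prime → p ∣ N → ‖coef f p‖ ≤ 1
  fricke : ∃ w : ℝ, (w = 1 ∨ w = -1) ∧ ∀ τ τ' : ℍ, (τ' : ℂ) * ((N : ℂ) * (τ : ℂ)) = -1 →
    f τ' = -(w : ℂ) * (N : ℂ) * (τ : ℂ) ^ 2 * f τ
  points : ∀ p : ℕ, GoodPrime a b p → ¬ p ∣ N ∧ coef f p = (p : ℂ) - (pointCount a b p : ℂ)

/-- The coefficient `a = -27 c₄` of the short Weierstrass equation `y² = x³ + a x + b` of `W`. -/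
def ca (W : WeierstrassCurve ℤ) : ℤ := -27 * W.c₄

/-- The coefficient `b = -54 c₆` of the short Weierstrass equation `y² = x³ + a x + b` of `W`. -/
def cb (W : WeierstrassCurve ℤ) : ℤ := -54 * W.c₆

/-- The 2-Selmer group of `W` over `ℚ` is trivial: `W(ℚ)` is finite of odd order and `Ш(W/ℚ)` has no
element of order two. -/
def TrivialTwoSelmer (W : WeierstrassCurve ℤ) : Prop :=
  Finite (W.map (Int.castRingHom ℚ)).toAffine.Point ∧
  Odd (Nat.card (W.map (Int.castRingHom ℚ)).toAffine.Point) ∧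
  ∀ s : Pool.Agent.TH841.NF.D.Sha (W.map (Int.castRingHom ℚ)), 2 • s = 0 → s = 0

/-- The curve `X_0(11) : y² + y = x³ - x² - 10 x - 20`. -/
def X11 : WeierstrassCurve ℤ := ⟨0, -1, 1, -10, -20⟩

/-- The curve given by the equation of `W` over the ring `R`. -/
abbrev base (W : WeierstrassCurve ℤ) (R : Type) [CommRing R] : WeierstrassCurve R :=
  W.map (Int.castRingHom R)

section tensor

/-! ### The abelian variety `A = E ⊗ M`, `M = ℤ^g`

Its points over an algebraic closure of `ℚ` are the `g`-tuples of points of `E`; the Galois group of `ℚ`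
acts on them by its action on `E` and the matrices `R(σ)`. -/

/-- The action of an integral matrix on `ℤ^g ⊗ G = G^g`. -/
def mat {G : Type} [AddCommGroup G] {g : ℕ} (A : Matrix (Fin g) (Fin g) ℤ) (P : Fin g → G) :
    Fin g → G := fun i => ∑ j, A i j • P j

variable {g : ℕ} (W : WeierstrassCurve ℤ) (R : Gal ℚ →* GL (Fin g) ℤ)

/-- The points of `A` over an extension of `ℚ` over which the action on `M` is trivial. -/
abbrev PtA (g : ℕ) (L : Type) [Field L] [Algebra ℚ L] : Type := Fin g → Pt (base W ℚ) L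

/-- The action of the Galois group on the points of `A`: `σ` applied to the coordinates, and then the
matrix `R(σ)`. -/
noncomputable def actA (σ : Gal ℚ) (P : PtA W g (AlgebraicClosure ℚ)) :
    PtA W g (AlgebraicClosure ℚ) :=
  mat (R σ : Matrix (Fin g) (Fin g) ℤ) (fun i => act (base W ℚ) σ.toAlgHom (P i))

/-- `A(ℚ)`. -/
def ptsA : Set (PtA W g (AlgebraicClosure ℚ)) := {P | ∀ σ : Gal ℚ, actA W R σ P = P}

/-- `f` is a continuous cocycle with values in `A`: `f (σ τ) = f σ + σ (f τ)`. -/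
def IsCocycle (f : Gal ℚ → PtA W g (AlgebraicClosure ℚ)) : Prop :=
  IsLocallyConstant f ∧ ∀ σ τ : Gal ℚ, f (σ * τ) = f σ + actA W R σ (f τ)

/-- `f` is a coboundary: `f σ = σ P - P`. -/
def IsCoboundary (f : Gal ℚ → PtA W g (AlgebraicClosure ℚ)) : Prop :=
  ∃ P : PtA W g (AlgebraicClosure ℚ), ∀ σ : Gal ℚ, f σ = actA W R σ P - P

/-- For every embedding of the algebraic closures the restriction of `f` to the absolute Galois
group of `K` is a coboundary: `f σ = τ P - P` for `τ` in this group with restriction `σ`. -/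
def LocTriv (K : Type) [Field K] [Algebra ℚ K] (f : Gal ℚ → PtA W g (AlgebraicClosure ℚ)) : Prop :=
  ∀ ι : AlgebraicClosure ℚ →ₐ[ℚ] AlgebraicClosure K, ∃ P : PtA W g (AlgebraicClosure K),
    ∀ (τ : Gal K) (σ : Gal ℚ), (∀ x, τ (ι x) = ι (σ x)) →
      (fun i => act (base W ℚ) ι (f σ i)) = mat (R σ : Matrix (Fin g) (Fin g) ℤ)
        (fun i => act (base W ℚ) (τ.toAlgHom.restrictScalars ℚ) (P i)) - P

/-- `f` is a continuous cocycle that is locally trivial at all the places of `ℚ`; its class is an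
element of `Ш(A/ℚ)`, and this is zero if and only if `f` is a coboundary. -/
def IsShaCocycle (f : Gal ℚ → PtA W g (AlgebraicClosure ℚ)) : Prop :=
  IsCocycle W R f ∧ (∀ (p : ℕ) [Fact p.Prime], LocTriv W R ℚ_[p] f) ∧ LocTriv W R ℝ f

/-- `A(ℚ)` is finite of odd order, and the 2-primary part of `Ш(A/ℚ)` is zero. -/
structure FormTrivial : Prop where
  points : Finite (ptsA W R)
  odd : Odd (Nat.card (ptsA W R))
  sha : ∀ f, IsShaCocycle W R f → ∀ k : ℕ, IsCoboundary W R (2 ^ k • f) → IsCoboundary W R f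

end tensor

/-- The contragredient: `A ↦ (A⁻¹)ᵀ`.  It gives the action on the dual lattice `M^∨`. -/
noncomputable def contra (g : ℕ) : GL (Fin g) ℤ →* GL (Fin g) ℤ where
  toFun A := ⟨((A⁻¹ : GL (Fin g) ℤ) : Matrix (Fin g) (Fin g) ℤ).transpose,
    ((A : GL (Fin g) ℤ) : Matrix (Fin g) (Fin g) ℤ).transpose, by
      rw [← Matrix.transpose_mul, ← Units.val_mul, mul_inv_cancel, Units.val_one,
        Matrix.transpose_one], by
      rw [← Matrix.transpose_mul, ← Units.val_mul, inv_mul_cancel, Units.val_one,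
        Matrix.transpose_one]⟩
  map_one' := by
    apply Units.ext
    show ((1⁻¹ : GL (Fin g) ℤ) : Matrix (Fin g) (Fin g) ℤ).transpose = 1
    rw [inv_one, Units.val_one, Matrix.transpose_one]
  map_mul' A B := by
    apply Units.ext
    show (((A * B)⁻¹ : GL (Fin g) ℤ) : Matrix (Fin g) (Fin g) ℤ).transpose =
      ((A⁻¹ : GL (Fin g) ℤ) : Matrix (Fin g) (Fin g) ℤ).transpose *
        ((B⁻¹ : GL (Fin g) ℤ) : Matrix (Fin g) (Fin g) ℤ).transpose
    rw [mul_inv_rev, Units.val_mul, Matrix.transpose_mul]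

section lattice

variable {m g : ℕ} (ρ : (ZMod m)ˣ →* GL (Fin g) ℤ)

/-- The matrix `ρ(p)` of the Frobenius automorphism at a prime `p` that does not divide `m`. -/
noncomputable def frob (p : ℕ) : Matrix (Fin g) (Fin g) ℤ :=
  if h : p.Coprime m then (ρ (ZMod.unitOfCoprime p h) : Matrix (Fin g) (Fin g) ℤ) else 0

/-- The Euler polynomial of `A = E ⊗ M` at a prime `p` that does not divide `m`, where `f` is the
newform of `E`: `det (1 - c(p) T ρ(p) + p T² ρ(p)²)`, without the last term if `p ∣ N`. -/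
noncomputable def P {N : ℕ} (f : CuspForm (Gamma0 N : Subgroup (GL (Fin 2) ℝ)) 2) (p : ℕ)
    (T : ℂ) : ℂ :=
  (1 - (coef f p * T) • (frob ρ p).map (Int.cast : ℤ → ℂ) +
    ((if p ∣ N then 0 else (p : ℂ)) * T ^ 2) • ((frob ρ p).map (Int.cast : ℤ → ℂ)) ^ 2).det

/-- The action `ρ` factors through the Galois group of the abelian field attached to `H`: it is trivial
on the `u` at which all the characters in `H` of conductor dividing `m` have the value `1`. -/
def Belongs (H : Subgroup Fam) : Prop :=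
  ∀ u : (ZMod m)ˣ, (∀ c ∈ H, conductor c ∣ m → value c (u : ZMod m).val = 1) → ρ u = 1

/-- The `L`-function of `A = E ⊗ M` is entire and does not vanish at `s = 1`: the Euler product over the
primes that do not divide `m` has an analytic continuation to `ℂ` of order `0` at `s = 1` (the missing
factors have neither zeros nor poles there). -/
def OrderZero {N : ℕ} (f : CuspForm (Gamma0 N : Subgroup (GL (Fin 2) ℝ)) 2) : Prop :=
  ∃ L : ℂ → ℂ, Differentiable ℂ L ∧
    (∀ s : ℂ, 3 / 2 < s.re → HasProd (fun p : Nat.Primes =>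
      if (p : ℕ) ∣ m then 1 else (P ρ f p (((p : ℕ) : ℂ) ^ (-s)))⁻¹) (L s)) ∧
    analyticOrderAt L 1 = 0

end lattice

/-- **Theorem.** (1) Let `W_1, …, W_r` be elliptic curves over `ℚ` with trivial 2-Selmer group and
`L(W_i, 1) ≠ 0`, and with newforms `f_i`. Let `H` be an infinite group of Dirichlet characters of order
dividing `2 ^ n` and of squarefree conductors composed of primes `q` of good reduction modulo which all
the `W_i` have an odd number of points. Then `H` has an infinite subgroup `H'` with the following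
property. Let `m` be squarefree, composed of such primes `q`, let `κ` be the cyclotomic character modulo
`m`, and let `ρ` be an action of `(ℤ/m)ˣ` on a lattice `M = ℤ^g` of any rank that factors through the
Galois group of the abelian field attached to `H'`. Then for all `i` the `L`-function of `A = W_i ⊗ M` is
entire and of order `0` at `s = 1`, the groups `A(ℚ)` and `A'(ℚ)`, where `A' = W_i ⊗ M^∨` is the dual
abelian variety, are finite of odd order, and the 2-primary parts of `Ш(A/ℚ)` and `Ш(A'/ℚ)` are zero.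

(2) The curve `X_0(11)` satisfies the hypotheses of (1). -/
theorem result :
    (∀ (r : ℕ) (W : Fin r → WeierstrassCurve ℤ) (N : Fin r → ℕ)
      (f : (i : Fin r) → CuspForm (Gamma0 (N i) : Subgroup (GL (Fin 2) ℝ)) 2),
      (∀ i, (W i).Δ ≠ 0) → (∀ i, TrivialTwoSelmer (W i)) → (∀ i, N i ≠ 0) →
      (∀ i, IsFormOf (ca (W i)) (cb (W i)) (N i) (f i)) →
      (∀ i, AnalyticRankZero (ca (W i)) (cb (W i))) →
      ∀ (n : ℕ) (H : Subgroup Fam), IsCharGroup (fun i => ca (W i)) (fun i => cb (W i)) n H →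
        (H : Set Fam).Infinite →
        ∃ H' : Subgroup Fam, H' ≤ H ∧ (H' : Set Fam).Infinite ∧
          ∀ (m : ℕ), Squarefree m →
            (∀ q : ℕ, q.Prime → q ∣ m → ∀ i, Admissible (ca (W i)) (cb (W i)) q) →
            ∀ (κ : Gal ℚ →* (ZMod m)ˣ),
            (∀ (σ : Gal ℚ) (ζ : AlgebraicClosure ℚ), ζ ^ m = 1 → σ ζ = ζ ^ ((κ σ : ZMod m)).val) →
            ∀ (g : ℕ) (ρ : (ZMod m)ˣ →* GL (Fin g) ℤ), Belongs ρ H' →
            ∀ i, OrderZero ρ (f i) ∧ FormTrivial (W i) (ρ.comp κ) ∧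
              FormTrivial (W i) (((contra g).comp ρ).comp κ)) ∧
    (X11.Δ ≠ 0 ∧ TrivialTwoSelmer X11 ∧ (∃ f : CuspForm (Gamma0 11 : Subgroup (GL (Fin 2) ℝ)) 2,
      IsFormOf (ca X11) (cb X11) 11 f) ∧ AnalyticRankZero (ca X11) (cb X11)) := by
  refine ⟨?_, ?_, ?_, ?_, ?_⟩
  · intro r W N f hΔ hS hN hf h0 n H hH hinf
    have : ∀ i, NeZero (N i) := fun i => ⟨hN i⟩
    have hne : ∀ i, 4 * ca (W i) ^ 3 + 27 * cb (W i) ^ 2 ≠ 0 := by
      intro i
      have h1 : 4 * ca (W i) ^ 3 + 27 * cb (W i) ^ 2 = -136048896 * (W i).Δ :=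
        Pool.Agent.R901.EC.ca_cb (W i)
      rw [h1]
      exact mul_ne_zero (by norm_num) (hΔ i)
    have hf' : ∀ i, Pool.Agent.Y18.BSD.IsFormOf (ca (W i)) (cb (W i)) (N i) (f i) := fun i =>
      ⟨(hf i).one, (hf i).real, (hf i).mul, (hf i).pow, (hf i).good, (hf i).bad,
        (hf i).fricke, (hf i).points⟩
    have hOk : Pool.Agent.Y18.LP.HOk r (fun i => ca (W i)) (fun i => cb (W i)) 2 n H :=
      ⟨hH.pow, hH.finite, hH.admissible⟩
    obtain ⟨H1, h1, h2, R, -, -, h3⟩ := Pool.Agent.R425.T.split_curves (W := W) hΔ n H hOk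
    have hinf1 : (H1 : Set Fam).Infinite := Pool.Agent.R901.EC.infinite_of_reps hinf R h3
    have hOk1 : Pool.Agent.Y18.LP.HOk r (fun i => ca (W i)) (fun i => cb (W i)) 2 n H1 :=
      ⟨fun c hc => hH.pow c (h1 hc), fun c hc => hH.finite c (h1 hc),
        fun c hc => hH.admissible c (h1 hc)⟩
    obtain ⟨lam, l1, l2, l3⟩ := Pool.Agent.Y18.LP.exists_lam Nat.prime_two
    have hms : ∀ i, Pool.Agent.Y18.LP.MS (N i) (Pool.Agent.Y18.BSD.bv (f i))
        (Pool.Agent.Y18.BSD.co (f i)) := fun i => by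
      obtain ⟨w, -, hfr⟩ := (hf' i).newf
      exact Pool.Agent.Y18.LP.ms_of (hf' i).hrel hfr
    have hv : ∀ i, Pool.Agent.Y18.BSD.bv (f i) 0 ≠ 0 := fun i =>
      Pool.Agent.Y18.LP.bv0_ne (hne i) (hf' i) (h0 i)
    obtain ⟨H', -, h4, h5, h6⟩ := Pool.Agent.Y18.LP.infinite hms hv Nat.prime_two n lam l1 l2 H1
      (Pool.Agent.Y18.LP.ok_of r (fun i => ca (W i)) (fun i => cb (W i)) N f hf' Nat.prime_two
        hOk1 l3) hinf1 ⊥ bot_le (by
        intro c hc i
        rw [Subgroup.mem_bot] at hc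
        rw [hc, Pool.Agent.Y18.LP.bt_one]
        exact hv i)
    refine ⟨H', h4.trans h1, h5, fun m hsq hm κ hκ g ρ hρ i => ?_⟩
    have hm0 : NeZero m := ⟨hsq.ne_zero⟩
    -- the condition on the action
    have hρ' : ∀ u : (ZMod m)ˣ, (∀ c ∈ H', (∀ q, q ∉ m.primeFactors → c q = 1) →
        (Pool.Agent.Y18.LP.XX c m.primeFactors m u : ℂ) = 1) → ρ u = 1 := by
      intro u hu
      refine hρ u fun c hc hcm => ?_
      have hfin : {q | c q ≠ 1}.Finite := hH.finite c (h1 (h4 hc))
      have hq : ∀ q, q ∉ m.primeFactors → c q = 1 := by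
        intro q hq
        by_contra hne
        have h7 : q ∈ Pool.Agent.Y18.LP.sp c := (Pool.Agent.Y18.LP.mem_sp hfin q).2 hne
        have h8 : q ∣ m := (Pool.Agent.Y18.LP.dvd_dd h7).trans hcm
        exact hq (Nat.mem_primeFactors.2 ⟨(hH.admissible c (h1 (h4 hc)) q hne).1, h8,
          hsq.ne_zero⟩)
      have h7 := hu c hc hq
      obtain ⟨-, hsub⟩ := Pool.Agent.Y18.LP.sp_sub _ hq
      have h8 : Pool.Agent.Y18.LP.XX c m.primeFactors m =
          Pool.Agent.Y18.LP.XX c (Pool.Agent.Y18.LP.sp c) m := by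
        refine Pool.Agent.Y18.LP.XX_subset c hsub (fun q _ hq => ?_) m
        by_contra h
        exact hq ((Pool.Agent.Y18.LP.mem_sp hfin q).2 h)
      rw [h8, Pool.Agent.Y18.LP.XX_val m
        (fun q hq => Nat.dvd_of_mem_primeFactors (hsub hq)) rfl] at h7
      exact h7
    have hodd : ∀ l : ℕ, l.Prime → l ∣ m → ¬ (l : ℤ) ∣ 2 * (W i).Δ ∧
        Odd ((l : ℤ) - Pool.Agent.Y702.G.pts (W i) (ZMod l)) := fun l hl hlm =>
      Pool.Agent.R901.EC.odd_pts' (hm l hl hlm i).1 (hm l hl hlm i).2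
    have hpow : ∀ u, ρ u ^ 2 ^ n = 1 := by
      intro u
      rw [← map_pow]
      refine hρ' _ fun c hc _ => ?_
      rw [map_pow, Pool.Agent.Y18.LP.XX_pow (hH.pow c (h1 (h4 hc)))]
      rfl
    have hspl : ∀ p : ℕ, p.Prime → (p : ℤ) ∣ 2 * (W i).Δ → ∀ hpm : p.Coprime m,
        ρ (ZMod.unitOfCoprime p hpm) = 1 := by
      intro p hp hpd hpm
      refine hρ' _ fun c hc hq => ?_
      rw [Pool.Agent.R425.T.val_nat hq (fun q hq => Nat.dvd_of_mem_primeFactors hq) hpm]
      exact (h2 c (h4 hc)).1 p ((Pool.Agent.R425.T.mem_badp hΔ p).2 ⟨hp, i, hpd⟩)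
    have hneg : ρ (-1) = 1 := by
      refine hρ' _ fun c hc hq => ?_
      have hfin : {q | c q ≠ 1}.Finite := hH.finite c (h1 (h4 hc))
      obtain ⟨-, hsub⟩ := Pool.Agent.Y18.LP.sp_sub _ hq
      have h8 : Pool.Agent.Y18.LP.XX c m.primeFactors m =
          Pool.Agent.Y18.LP.XX c (Pool.Agent.Y18.LP.sp c) m := by
        refine Pool.Agent.Y18.LP.XX_subset c hsub (fun q _ hq => ?_) m
        by_contra h
        exact hq ((Pool.Agent.Y18.LP.mem_sp hfin q).2 h)
      rw [h8, Pool.Agent.R425.T.XX_neg_one c (fun q hq => Nat.dvd_of_mem_primeFactors (hsub hq))]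
      exact (h2 c (h4 hc)).2
    refine ⟨?_, ?_, ?_⟩
    · obtain ⟨G, hG1, hG2, hG3⟩ := Pool.Agent.R425.T.ten_an (hf' i) H' m hsq
        (fun q hq hqm => ((hf i).points q (hm q hq hqm i).1).1) (fun c hc => h6 c hc i) ρ hρ'
      exact ⟨G, hG1, hG2, analyticOrderAt_eq_zero.2 (Or.inr hG3)⟩
    · obtain ⟨a1, a2, a3⟩ := Pool.Agent.R425.T.ten_alg (W i) (hΔ i) (hS i).2.2 (hS i).1 (hS i).2.1 m
        hodd ρ hpow hspl (fun _ => hneg) κ hκ
      refine ⟨a1, a2, fun f hf k hk => ?_⟩
      have h7 := a3 (QuotientAddGroup.mk (⟨f, hf⟩ : Pool.Agent.Y702.A.shaCocA (W i) (ρ.comp κ))) k (by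
        rw [← QuotientAddGroup.mk_nsmul, QuotientAddGroup.eq_zero_iff]
        exact hk)
      rw [QuotientAddGroup.eq_zero_iff] at h7
      exact h7
    · obtain ⟨a1, a2, a3⟩ := Pool.Agent.R425.T.ten_alg (W i) (hΔ i) (hS i).2.2 (hS i).1 (hS i).2.1 m
        hodd ((contra g).comp ρ) (fun u => by
          rw [MonoidHom.comp_apply, ← map_pow, hpow u, map_one]) (fun p hp hpd hpm => by
          rw [MonoidHom.comp_apply, hspl p hp hpd hpm, map_one]) (fun _ => by
          rw [MonoidHom.comp_apply, hneg, map_one]) κ hκ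
      refine ⟨a1, a2, fun f hf k hk => ?_⟩
      have h7 := a3 (QuotientAddGroup.mk (⟨f, hf⟩ :
        Pool.Agent.Y702.A.shaCocA (W i) (((contra g).comp ρ).comp κ))) k (by
        rw [← QuotientAddGroup.mk_nsmul, QuotientAddGroup.eq_zero_iff]
        exact hk)
      rw [QuotientAddGroup.eq_zero_iff] at h7
      exact h7
  · norm_num [X11, WeierstrassCurve.Δ, WeierstrassCurve.b₂, WeierstrassCurve.b₄,
      WeierstrassCurve.b₆, WeierstrassCurve.b₈]
  · obtain ⟨h1, h2, h3⟩ := Pool.Agent.R901.EC.sel11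
    exact ⟨h2, h3, h1⟩
  · have e1 : ca X11 = -13392 := by
      norm_num [ca, X11, WeierstrassCurve.c₄, WeierstrassCurve.b₂, WeierstrassCurve.b₄]
    have e2 : cb X11 = -1080432 := by
      norm_num [cb, X11, WeierstrassCurve.c₆, WeierstrassCurve.b₂, WeierstrassCurve.b₄,
        WeierstrassCurve.b₆]
    rw [e1, e2]
    have h := Pool.Agent.Y18.BSD.Eleven.isFormOf
    exact ⟨_, ⟨h.one, h.real, h.mul, h.pow, h.good, h.bad, h.fricke, h.points⟩⟩
  · have e1 : ca X11 = -13392 := by
      norm_num [ca, X11, WeierstrassCurve.c₄, WeierstrassCurve.b₂, WeierstrassCurve.b₄]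
    have e2 : cb X11 = -1080432 := by
      norm_num [cb, X11, WeierstrassCurve.c₆, WeierstrassCurve.b₂, WeierstrassCurve.b₄,
        WeierstrassCurve.b₆]
    rw [e1, e2]
    exact Pool.Agent.Y18.NF.rankZero11

end Pool.Agent.Results.MP_b8021b_nt.TensorTowers
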